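import Pool.Agent.Helper3_PQX.Stmts

/-!
# Squad PQX, module QFX: a place fixed by a nontrivial automorphism is ramified
-/

set_option autoImplicit false

universe u

open MvPolynomial PGH PGL

namespace Pool.Agent.PQX.H13

open FibreTowers Pool.Agent.PQX

theorem qfx : QfxStmt.{u} := by
  intro k B _ _ _ v σ hσ hne w c hw hwc hge
  by_contra hlt
  set t : B := w - algebraMap k B c with ht
  have ht0 : t ≠ 0 := sub_ne_zero.2 hwc
  have h1 : 1 ≤ v.ord t := (v.ge_iff ht0).1 hge
  have hord : v.ord t = 1 := by omega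
  have hσt : σ t = t := by rw [ht, map_sub, hw, AlgEquiv.commutes]
  have hfix : ∀ y : B, v.Ge 0 y → v.Ge 0 (σ y) := by
    intro y hy
    by_cases hy0 : y = 0
    · rw [hy0, map_zero]; exact v.ge_zero 0
    · have h2 : σ y ≠ 0 := by simpa using hy0
      rw [v.ge_iff h2, hσ y]
      exact (v.ge_iff hy0).1 hy
  have key : ∀ n : ℕ, ∀ y : B, v.Ge 0 y → v.Ge n (σ y - y) := by
    intro n
    induction n with
    | zero =>
      intro y hy
      exact (hfix y hy).sub hy
    | succ n ih =>
      intro y hy
      obtain ⟨d, hd⟩ := v.exists_res hy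
      have h3 : v.Ge 0 ((y - algebraMap k B d) * t⁻¹) := by
        refine hd.mul' (n := -1) ?_ (by omega)
        rw [v.ge_iff (inv_ne_zero ht0), v.ord_inv, hord]
      have h4 := ih _ h3
      have h5 : σ y - y = t * (σ ((y - algebraMap k B d) * t⁻¹) - (y - algebraMap k B d) * t⁻¹) := by
        rw [map_mul, map_inv₀, hσt, map_sub, AlgEquiv.commutes]
        field_simp
        ring
      rw [h5]
      refine hge.mul' h4 ?_
      push_cast
      omega
  have hreg : ∀ y : B, v.Ge 0 y → σ y = y := by
    intro y hy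
    by_contra hcon
    have h2 : σ y - y ≠ 0 := sub_ne_zero.2 hcon
    have h3 := (v.ge_iff h2).1 (key ((v.ord (σ y - y)).toNat + 1) y hy)
    push_cast at h3
    have h4 := Int.self_le_toNat (v.ord (σ y - y))
    omega
  obtain ⟨y, hy⟩ := hne
  apply hy
  by_cases hy0 : y = 0
  · rw [hy0, map_zero]
  by_cases hge0 : v.Ge 0 y
  · exact hreg y hge0
  · have h2 : v.Ge 0 y⁻¹ := by
      rw [v.ge_iff (inv_ne_zero hy0), v.ord_inv]
      rw [v.ge_iff hy0] at hge0
      omega
    have h3 := hreg _ h2
    rw [map_inv₀] at h3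
    exact inv_injective h3

end Pool.Agent.PQX.H13
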